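import Pool.Agent.X171.BL.Renorm

/-!
# MP_566259_an, Q1: every separable Banach lattice is an inductive limit of semiprojective ones

Let `E` be a separable Banach lattice and let `x n` be dense in `E`. Put
`u n = 2⁻ⁿ |x n| / (1 + ‖x n‖)`, `e = ∑ u n` and let `ι : C([0,1]^ℕ) → E` be the lattice
homomorphism with `ι 1 = e` and `ι (pr n) = u n`; its range is dense. Let `p 0 = 1` and let
`p 1, p 2, ...` be dense in `C([0,1]^ℕ)`. Let `A n` be the space `C([0,1]^ℕ)` with the lattice norm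
`rho n f = inf {∑ i ≤ n, a i * (‖ι (p i)‖ + 1 / (n + 1)) : a i ≥ 0, |f| ≤ ∑ i ≤ n, a i * |p i|}`.
It is equivalent to the supremum norm, and `rho n f` decreases to `‖ι f‖`. So `E` is the inductive
limit of the `A n`, with the identity maps as connecting maps.

The lattice `A n` is projective: let `Q : X → Y` be a quotient map and let `φ : A n → Y` be a
contractive lattice homomorphism. Lift `φ 1` to `e' ≥ 0` and `φ (pr j)` to elements of `[0, e']`;
this gives a lattice homomorphism `Ψ : C([0,1]^ℕ) → X` with `Q Ψ = φ`. There is `w ≥ 0` in the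
kernel of `Q` such that `‖(Ψ |p i| - w)⁺‖ ≤ c i + ε` for `i ≤ n`. Let `v = δ⁻¹ (w ⊓ δ e')` be the
value of an additional generator `t`, extend `Ψ` to `Ψ'` on `C([0,1]^(ℕ ∪ {t}))`, and put
`ψ f = Ψ' ((1 - t) f)`. Then `Q ψ = φ`, as `Q v = 0`, and `ψ |p i| ≤ (Ψ |p i| - w)⁺ + δ e'`.
-/

open Filter Topology

namespace Pool.Agent.Results.MP_566259_an.InductiveLimitOfProjective

open Pool.Agent.X171.BL

universe u v

section
variable {E : Type u} [NormedAddCommGroup E] [Lattice E] [NormedSpace ℝ E] [BanachLattice E]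
  [TopologicalSpace.SeparableSpace E]

variable (E) in
/-- a lattice homomorphism from `C([0,1]^ℕ)` with dense range -/
lemma exists_iota : ∃ ι : C(K ℕ, ℝ) →L[ℝ] E, IsLatticeHom ι ∧ DenseRange ι := by
  obtain ⟨x, hx⟩ := TopologicalSpace.exists_dense_seq E
  set r : ℕ → ℝ := fun n => (1 / 2) ^ n / (1 + ‖x n‖) with hr
  have hr0 : ∀ n, 0 < r n := fun n => by
    have := norm_nonneg (x n)
    positivity
  set u : ℕ → E := fun n => r n • |x n| with hu
  have hu0 : ∀ n, 0 ≤ u n := fun n => smul_nonneg (hr0 n).le (abs_nonneg _)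
  have hus : Summable u := by
    refine Summable.of_norm_bounded summable_geometric_two fun n => ?_
    have h1 := norm_nonneg (x n)
    rw [hu]
    simp only
    rw [norm_smul, norm_abs_eq_norm, Real.norm_eq_abs, abs_of_pos (hr0 n), hr]
    simp only
    rw [div_mul_eq_mul_div, div_le_iff₀ (by positivity)]
    have h2 : (0 : ℝ) ≤ (1 / 2) ^ n := by positivity
    nlinarith
  have hue : ∀ n, u n ≤ ∑' n, u n := fun n => hus.le_tsum n fun j _ => hu0 j
  have he : 0 ≤ ∑' n, u n := (hu0 0).trans (hue 0)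
  obtain ⟨ι, h1, -, h2⟩ := exists_hom' (Γ := ℕ) (fun n => ⟨hu0 n, hue n⟩) he
  refine ⟨ι, h1, ?_⟩
  set S : Submodule ℝ E := (LinearMap.range (ι : C(K ℕ, ℝ) →ₗ[ℝ] E)).topologicalClosure with hS
  have hSc : IsClosed (S : Set E) := Submodule.isClosed_topologicalClosure _
  have hmem : ∀ f, ι f ∈ S := fun f =>
    Submodule.le_topologicalClosure _ (LinearMap.mem_range.2 ⟨f, rfl⟩)
  have hax : ∀ n, |x n| ∈ S := by
    intro n
    have h3 := S.smul_mem (r n)⁻¹ (hmem (pr n))
    rw [h2] at h3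
    simp only [hu] at h3
    rwa [smul_smul, inv_mul_cancel₀ (hr0 n).ne', one_smul] at h3
  have habs : ∀ y : E, |y| ∈ S := by
    have hcont : Continuous fun y : E => |y| := by
      have : Continuous fun y : E => y ⊔ -y := continuous_id.sup continuous_neg
      exact this
    intro y
    have hcl : IsClosed {y : E | |y| ∈ S} := hSc.preimage hcont
    have hsub : closure (Set.range x) ⊆ {y : E | |y| ∈ S} := by
      apply closure_minimal _ hcl
      rintro _ ⟨n, rfl⟩
      exact hax n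
    exact hsub (hx y)
  have hall : ∀ y : E, y ∈ S := by
    intro y
    have h3 : y⁺ ∈ S := by
      have := habs y⁺
      rwa [abs_of_nonneg (posPart_nonneg y)] at this
    have h4 : y⁻ ∈ S := by
      have := habs y⁻
      rwa [abs_of_nonneg (negPart_nonneg y)] at this
    have := S.sub_mem h3 h4
    rwa [posPart_sub_negPart] at this
  intro y
  have h5 : y ∈ (S : Set E) := hall y
  rw [hS, Submodule.topologicalClosure_coe] at h5
  exact h5

/-- a dense sequence in `C([0,1]^ℕ)`, starting with `1` -/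
lemma exists_seq : ∃ p : ℕ → C(K ℕ, ℝ), p 0 = 1 ∧
    ∀ f : C(K ℕ, ℝ), ∀ ε : ℝ, 0 < ε → ∃ i, ‖f - p i‖ < ε := by
  obtain ⟨d, hd⟩ := TopologicalSpace.exists_dense_seq C(K ℕ, ℝ)
  refine ⟨fun i => Nat.casesOn i 1 d, rfl, fun f ε hε => ?_⟩
  obtain ⟨i, hi⟩ := hd.exists_dist_lt f hε
  rw [dist_eq_norm] at hi
  exact ⟨i + 1, hi⟩

/-- the data of the renorming `rho n` -/
noncomputable def wt (ι : C(K ℕ, ℝ) →L[ℝ] E) (p : ℕ → C(K ℕ, ℝ)) (hp : p 0 = 1) (n : ℕ) :
    Wt ℕ where
  n := n
  p := p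
  c := fun i => ‖ι (p i)‖ + 1 / (n + 1)
  p_zero := hp
  c_pos := fun i => by positivity

variable (ι : C(K ℕ, ℝ) →L[ℝ] E) (p : ℕ → C(K ℕ, ℝ)) (hp : p 0 = 1)

/-- the lattices `A n` -/
abbrev Lat (n : ℕ) : Type := RN (wt ι p hp n)

omit [Lattice E] [BanachLattice E] [TopologicalSpace.SeparableSpace E] in
lemma rho_succ (n : ℕ) (f : C(K ℕ, ℝ)) :
    (wt ι p hp (n + 1)).rho f ≤ (wt ι p hp n).rho f := by
  have key := (wt ι p hp n).le_rho (f := f) (t := (wt ι p hp (n + 1)).rho f) (C := 1)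
    zero_le_one fun a ha => by
      rw [one_mul]
      set b : ℕ → ℝ := fun i => if i < n + 1 then a i else 0 with hb
      have hb1 : (wt ι p hp (n + 1)).Dom f b := by
        refine ⟨fun i => ?_, ?_⟩
        · rw [hb]
          simp only
          split_ifs
          · exact ha.1 i
          · exact le_rfl
        · refine ha.2.trans_eq ?_
          change ∑ i ∈ Finset.range (n + 1), a i • |p i| =
            ∑ i ∈ Finset.range (n + 1 + 1), b i • |p i|
          rw [Finset.sum_range_succ _ (n + 1)]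
          have h1 : b (n + 1) = 0 := by simp [hb]
          rw [h1, zero_smul, add_zero]
          refine Finset.sum_congr rfl fun i hi => ?_
          have h2 : b i = a i := if_pos (Finset.mem_range.1 hi)
          rw [h2]
      refine ((wt ι p hp (n + 1)).rho_le hb1).trans ?_
      change ∑ i ∈ Finset.range (n + 1 + 1), b i * (‖ι (p i)‖ + 1 / (((n + 1 : ℕ) : ℝ) + 1)) ≤
        ∑ i ∈ Finset.range (n + 1), a i * (‖ι (p i)‖ + 1 / ((n : ℝ) + 1))
      rw [Finset.sum_range_succ _ (n + 1)]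
      have h1 : b (n + 1) = 0 := by simp [hb]
      rw [h1, zero_mul, add_zero]
      refine Finset.sum_le_sum fun i hi => ?_
      have h2 : b i = a i := if_pos (Finset.mem_range.1 hi)
      rw [h2]
      have h3 := ha.1 i
      push_cast
      gcongr
      linarith
  rwa [one_mul] at key

/-- the connecting maps -/
noncomputable def conn (n : ℕ) : Lat ι p hp n →L[ℝ] Lat ι p hp (n + 1) :=
  LinearMap.mkContinuous
    { toFun := fun f => f
      map_add' := fun _ _ => rfl
      map_smul' := fun _ _ => rfl } 1 fun f => by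
        rw [one_mul]
        exact rho_succ ι p hp n f

omit [BanachLattice E] [TopologicalSpace.SeparableSpace E] in
lemma conn_hom (n : ℕ) : IsLatticeHom (conn ι p hp n) :=
  ⟨fun _ _ => rfl, fun _ _ => rfl⟩

omit [BanachLattice E] [TopologicalSpace.SeparableSpace E] in
lemma composite_eq (n k : ℕ) (f : Lat ι p hp n) :
    (composite (conn ι p hp) n k f : C(K ℕ, ℝ)) = (f : C(K ℕ, ℝ)) := by
  induction k with
  | zero => rfl
  | succ k ih => exact ih

omit [TopologicalSpace.SeparableSpace E] in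
lemma norm_le_rho (hι : IsLatticeHom ι) (n : ℕ) (f : C(K ℕ, ℝ)) :
    ‖ι f‖ ≤ (wt ι p hp n).rho f := by
  have h := bound_of_hom (wt ι p hp n) hι zero_le_one (fun i _ => by
    rw [one_mul]
    change ‖ι (p i)‖ ≤ ‖ι (p i)‖ + 1 / ((n : ℝ) + 1)
    have : (0 : ℝ) ≤ 1 / ((n : ℝ) + 1) := by positivity
    linarith) f
  rwa [one_mul] at h

/-- the maps into the limit -/
noncomputable def into (hι : IsLatticeHom ι) (n : ℕ) : Lat ι p hp n →L[ℝ] E :=
  LinearMap.mkContinuous
    { toFun := fun f => ι f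
      map_add' := fun f g => ι.map_add f g
      map_smul' := fun r f => ι.map_smul r f } 1 fun f => by
        rw [one_mul]
        exact norm_le_rho ι p hp hι n f

omit [Lattice E] [BanachLattice E] [TopologicalSpace.SeparableSpace E] in
lemma rho_le (m i : ℕ) (him : i ≤ m) (f : C(K ℕ, ℝ)) :
    (wt ι p hp m).rho f ≤ ‖ι f‖ + (‖ι‖ + ‖ι 1‖ + 1) * ‖f - p i‖ + 1 / ((m : ℝ) + 1) := by
  set W := wt ι p hp m with hW
  have h1 : W.rho (p i) ≤ ‖ι (p i)‖ + 1 / ((m : ℝ) + 1) :=
    W.rho_p (i := i) (Finset.mem_range.2 (by change i < m + 1; omega))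
  have h2 : W.rho (f - p i) ≤ (‖ι 1‖ + 1 / ((m : ℝ) + 1)) * ‖f - p i‖ := by
    have := W.rho_le_norm (f - p i)
    change _ ≤ (‖ι (p 0)‖ + 1 / ((m : ℝ) + 1)) * ‖f - p i‖ at this
    rwa [hp] at this
  have h3 := W.rho_add (p i) (f - p i)
  rw [add_sub_cancel] at h3
  have h4 : ‖ι (p i)‖ ≤ ‖ι f‖ + ‖ι‖ * ‖f - p i‖ := by
    have h5 : ι (p i) = ι f - ι (f - p i) := by rw [map_sub]; abel
    rw [h5]
    refine (norm_sub_le _ _).trans ?_
    gcongr
    exact ι.le_opNorm _
  have h6 : 1 / ((m : ℝ) + 1) ≤ 1 := by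
    rw [div_le_one (by positivity)]
    have : (0 : ℝ) ≤ m := by positivity
    linarith
  have h7 : (‖ι 1‖ + 1 / ((m : ℝ) + 1)) * ‖f - p i‖ ≤ (‖ι 1‖ + 1) * ‖f - p i‖ := by
    gcongr
  calc W.rho f ≤ W.rho (p i) + W.rho (f - p i) := h3
    _ ≤ (‖ι f‖ + ‖ι‖ * ‖f - p i‖ + 1 / ((m : ℝ) + 1)) + (‖ι 1‖ + 1) * ‖f - p i‖ := by
      linarith
    _ = _ := by ring

omit [TopologicalSpace.SeparableSpace E] in
lemma isInductiveLimit (hι : IsLatticeHom ι) (hd : DenseRange ι)
    (hpd : ∀ f : C(K ℕ, ℝ), ∀ ε : ℝ, 0 < ε → ∃ i, ‖f - p i‖ < ε) :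
    IsInductiveLimit (conn ι p hp) (into ι p hp hι) := by
  refine ⟨fun n => ⟨fun f g => hι.sup f g, fun f g => hι.inf f g⟩, fun n x => rfl,
    fun n (f : C(K ℕ, ℝ)) => ?_, ?_⟩
  · change Tendsto (fun k => (wt ι p hp (n + k)).rho (composite (conn ι p hp) n k f)) atTop
      (𝓝 ‖ι f‖)
    have h1 : ∀ k, (wt ι p hp (n + k)).rho (composite (conn ι p hp) n k f) =
        (wt ι p hp (n + k)).rho f := fun k => by
      congr 1
      exact composite_eq ι p hp n k f
    simp only [h1]
    rw [Metric.tendsto_atTop]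
    intro ε hε
    set C := ‖ι‖ + ‖ι 1‖ + 1 with hC
    have hC0 : 0 < C := by positivity
    obtain ⟨i, hi⟩ := hpd f (ε / (2 * C)) (by positivity)
    obtain ⟨N, hN⟩ := exists_nat_one_div_lt (show (0 : ℝ) < ε / 2 by positivity)
    refine ⟨max i N, fun k hk => ?_⟩
    have h2 := rho_le ι p hp (n + k) i (by omega) f
    have h3 := norm_le_rho ι p hp hι (n + k) f
    have h4 : 1 / (((n + k : ℕ) : ℝ) + 1) ≤ 1 / ((N : ℝ) + 1) := by
      have : N ≤ n + k := by omega
      have : (N : ℝ) ≤ ((n + k : ℕ) : ℝ) := by exact_mod_cast this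
      gcongr
    have h5 : C * ‖f - p i‖ < ε / 2 := by
      calc C * ‖f - p i‖ < C * (ε / (2 * C)) := by gcongr
        _ = ε / 2 := by field_simp
    rw [Real.dist_eq, abs_of_nonneg (by linarith)]
    linarith
  · intro y
    refine closure_mono ?_ (hd y)
    rintro _ ⟨f, rfl⟩
    exact Set.mem_iUnion.2 ⟨0, ⟨f, rfl⟩⟩

end

/-- **Theorem.** Every separable Banach lattice `E` is the inductive limit of a sequence of
semiprojective (even projective) Banach lattices `A n` with contractive lattice homomorphisms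
`φ n : A n → A (n + 1)` as connecting maps. -/
theorem result (E : Type u) [NormedAddCommGroup E] [Lattice E] [NormedSpace ℝ E]
    [BanachLattice E] [TopologicalSpace.SeparableSpace E] :
    ∃ (A : ℕ → Type) (_ : ∀ n, NormedAddCommGroup (A n)) (_ : ∀ n, Lattice (A n))
      (_ : ∀ n, NormedSpace ℝ (A n)) (φ : ∀ n, A n →L[ℝ] A (n + 1)) (ι : ∀ n, A n →L[ℝ] E),
      (∀ n, BanachLattice (A n)) ∧ (∀ n, Semiprojective.{v} (A n)) ∧
      (∀ n, Projective.{v} (A n)) ∧ (∀ n, IsLatticeHom (φ n) ∧ ‖φ n‖ ≤ 1) ∧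
      IsInductiveLimit φ ι := by
  obtain ⟨ι, hι, hd⟩ := exists_iota E
  obtain ⟨p, hp, hpd⟩ := exists_seq
  refine ⟨Lat ι p hp, fun n => inferInstance, fun n => inferInstance, fun n => inferInstance,
    conn ι p hp, into ι p hp hι, fun n => inferInstance,
    fun n => (RN.projective (wt ι p hp n)).semiprojective,
    fun n => RN.projective (wt ι p hp n), fun n => ⟨conn_hom ι p hp n, ?_⟩,
    isInductiveLimit ι p hp hι hd hpd⟩
  exact LinearMap.mkContinuous_norm_le _ zero_le_one _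

end Pool.Agent.Results.MP_566259_an.InductiveLimitOfProjective
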